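import Pool.Agent.Helper70.FS.Small

/-!
# Which finite-state machines decide normality

A machine with finitely many states reads the digits of a real number `x` in base `b` one after the
other and writes a symbol at every step; the symbol and the next state depend on the state and on
the digit which is read. We compare the frequencies of the words which are written with the
frequencies for random digits, and say that the output is typical if they agree. (For a connected
machine the frequencies for random digits are given by the unique stationary distribution of its
states.) If `x` is normal, the output is typical. We determine the finite sets of machines for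
which the converse is true.

A machine is lossless if no two different words lead from the same state to the same state while
the same word is written. For instance the digits of `x / m`, the sums modulo `b` of neighbouring
digits, or all words of three digits are written by lossless machines; most machines are not
lossless (for instance all which write whether a word has just been read, whether a prediction of
the next digit was right, or which class of a partition of the digits was read).

* One lossless machine suffices: if its output is typical then `x` is normal. More generally it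
  suffices that all words of length `k` have in the output of some machine an upper frequency of at
  most `C b ^ (-k)`.
* Finitely many connected machines none of which is lossless never suffice. More precisely, for
  every `S` there is a real number which is not normal although the output of every connected
  machine with at most `S` states which is not lossless is typical.
* All connected machines which are not lossless together suffice.

So the normality of `π` can be decided from the output frequencies of a finite set of connected
machines exactly if at least one of them is lossless.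

Proof. For the first part: few words have wrong frequencies of digits, and a lossless machine
writes on them few words (at most `|Q|` words of length `k` are answered by the same word). For the
second part: a connected machine which is not lossless does not separate the words of length `K`
well; the number of possible results is exponentially smaller than `b ^ K`. So for some `K` there
is a function `g ≠ 0` of the words of length `K` such that the sum of `g` over the words with the
same result is zero for all the machines and all initial states; one takes concatenations of
independent words which have a distribution `b ^ (-K) (1 + c g)`.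
-/

set_option autoImplicit false

open Filter Topology

namespace Pool.Agent.Results.MP_57632f_nt.MachinesThatDecide

open Pool.Agent.Helper70.FS

/-- the digit of `x` in base `b` at the place `i + 1` after the point -/
noncomputable def digit (b : ℕ) [NeZero b] (x : ℝ) (i : ℕ) : Fin b :=
  Fin.ofNat b (⌊x * (b : ℝ) ^ (i + 1)⌋ % (b : ℤ)).toNat

/-- normality in base `b`: every word has the frequency `b ^ (- length)` -/
def Normal (b : ℕ) [NeZero b] (x : ℝ) : Prop :=
  ∀ w : List (Fin b), Tendsto (fun N : ℕ => (occ (digit b x) w N : ℝ) / N) atTop
    (𝓝 (1 / (b : ℝ) ^ w.length))

/-- the output of the machine `M`, which starts in the state `s` and reads the digits of `x`, is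
typical -/
def TypicalOutput (b : ℕ) [NeZero b] (x : ℝ) {Q Γ : Type} [Fintype Q]
    (M : Machine (Fin b) Q Γ) (s : Q) : Prop :=
  M.Typical (M.output s (digit b x))

lemma normal_iff (b : ℕ) [NeZero b] (x : ℝ) : Normal b x ↔ NormalSeq (digit b x) := by
  unfold Normal NormalSeq
  rw [Fintype.card_fin]

lemma exists_digits (b : ℕ) [NeZero b] (hb : 2 ≤ b) (a : ℕ → Fin b)
    (ha : ∀ N, ∃ n, N ≤ n ∧ a n = 0) : ∃ x : ℝ, digit b x = a := by
  obtain ⟨x, hx⟩ := Helper84.Places.exists_real hb a ha
  refine ⟨x, ?_⟩
  funext i
  unfold digit
  rw [hx i]
  apply Fin.ext
  simp only [Int.toNat_natCast, Fin.val_ofNat]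
  exact Nat.mod_eq_of_lt (a i).2

/-- the machine which writes the sum modulo `b` of the last two digits -/
def adder (b : ℕ) [NeZero b] : Machine (Fin b) (Fin b) (Fin b) where
  next := fun _ a => a
  out := fun q a => q + a

lemma adder_after (b : ℕ) [NeZero b] (q : Fin b) (a : Fin b) (l : List (Fin b)) :
    (adder b).after q (a :: l) = (adder b).after a l := rfl

lemma adder_connected (b : ℕ) [NeZero b] : (adder b).Connected := fun _ q' => ⟨[q'], rfl⟩

lemma adder_inj (b : ℕ) [NeZero b] (q : Fin b) (u v : List (Fin b))
    (h : (adder b).outs q u = (adder b).outs q v) : u = v := by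
  induction u generalizing q v with
  | nil =>
    rcases v with _ | ⟨a, v⟩
    · rfl
    · simp at h
  | cons a u ih =>
    rcases v with _ | ⟨a', v⟩
    · simp at h
    · rw [Machine.outs_cons, Machine.outs_cons, List.cons.injEq] at h
      have h1 : q + a = q + a' := h.1
      have h2 : a = a' := by
        rcases b with _ | b
        · exact absurd rfl (NeZero.ne 0)
        · exact add_left_cancel h1
      subst h2
      rw [ih a v h.2]

lemma adder_lossless (b : ℕ) [NeZero b] : (adder b).Lossless :=
  fun q u v _ h => adder_inj b q u v h

lemma adder_prob (b : ℕ) [NeZero b] (q : Fin b) (w : List (Fin b)) :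
    (adder b).prob q w = 1 / (b : ℝ) ^ w.length := by
  induction w generalizing q with
  | nil => simp [Machine.prob]
  | cons g w ih =>
    simp only [Machine.prob, ih, Fintype.card_fin, List.length_cons]
    have h : ∀ a : Fin b, ((adder b).out q a = g) ↔ a = g - q := by
      intro a
      show q + a = g ↔ a = g - q
      rcases b with _ | b
      · exact absurd rfl (NeZero.ne 0)
      · constructor
        · rintro rfl
          simp
        · rintro rfl
          simp
    simp only [h]
    rw [Finset.sum_ite_eq' Finset.univ (g - q), if_pos (Finset.mem_univ _), pow_succ, div_div]

/-- **Which finite-state machines decide normality.** -/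
theorem result :
    (∀ (b : ℕ) [NeZero b], 2 ≤ b →
      -- (1) connected machines have a unique stationary distribution, and their output is typical
      -- for normal numbers
      (∀ (Q Γ : Type) [Fintype Q] (M : Machine (Fin b) Q Γ) (s : Q), M.Connected →
        (∃! p, M.Stationary p) ∧ ∀ x : ℝ, Normal b x → TypicalOutput b x M s) ∧
      -- (2) one lossless machine decides normality
      (∀ (Q Γ : Type) [Fintype Q] (M : Machine (Fin b) Q Γ) (s : Q), M.Lossless →
        ∀ x : ℝ, TypicalOutput b x M s → Normal b x) ∧
      -- (3) and so does every machine for which the output satisfies suitable upper bounds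
      (∀ (Q Γ : Type) [Fintype Q] (M : Machine (Fin b) Q Γ) (s : Q) (x C : ℝ),
        (∀ w : List Γ, ∀ ε : ℝ, 0 < ε → ∀ᶠ N : ℕ in atTop,
          (occ (M.output s (digit b x)) w N : ℝ) / N ≤ C / (b : ℝ) ^ w.length + ε) →
        Normal b x) ∧
      -- (4) the finite sets of machines which decide normality
      (∀ (ι : Type) [Finite ι] (Q Γ : ι → Type) [∀ i, Fintype (Q i)]
        (M : ∀ i, Machine (Fin b) (Q i) (Γ i)) (s : ∀ i, Q i), (∀ i, (M i).Connected) →
        ((∀ x : ℝ, (∀ i, TypicalOutput b x (M i) (s i)) → Normal b x) ↔ ∃ i, (M i).Lossless)) ∧
      -- (5) one number which is not normal for all small machines which are not lossless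
      (∀ S : ℕ, ∃ x : ℝ, ¬ Normal b x ∧
        ∀ (Q Γ : Type) [Fintype Q] (M : Machine (Fin b) Q Γ) (s : Q), Fintype.card Q ≤ S →
          M.Connected → ¬ M.Lossless → TypicalOutput b x M s) ∧
      -- (6) all machines which are not lossless together decide normality
      (∀ x : ℝ, (∀ (Q Γ : Type) [Fintype Q] (M : Machine (Fin b) Q Γ) (s : Q),
        M.Connected → ¬ M.Lossless → TypicalOutput b x M s) → Normal b x)) ∧
    -- (7) the number `π` in base ten, and the example of the sums of neighbouring digits
    (∀ (Q Γ : Type) [Fintype Q] (M : Machine (Fin 10) Q Γ) (s : Q), M.Connected → M.Lossless →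
      (Normal 10 Real.pi ↔ TypicalOutput 10 Real.pi M s)) ∧
    (Normal 10 Real.pi ↔ ∀ w : List (Fin 10), Tendsto (fun N : ℕ =>
      (occ (fun n => digit 10 Real.pi n + digit 10 Real.pi (n + 1)) w N : ℝ) / N) atTop
        (𝓝 (1 / (10 : ℝ) ^ w.length))) := by
  have part1 : ∀ (b : ℕ) [NeZero b], ∀ (Q Γ : Type) [Fintype Q] (M : Machine (Fin b) Q Γ)
      (s : Q), M.Connected →
      (∃! p, M.Stationary p) ∧ ∀ x : ℝ, Normal b x → TypicalOutput b x M s := by
    intro b _ Q Γ _ M s hM
    obtain ⟨p, hp⟩ := exists_stationary M s
    refine ⟨⟨p, hp, fun p' hp' => stationary_unique M hM hp' hp⟩, fun x hx => ?_⟩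
    rw [normal_iff] at hx
    exact ⟨p, hp, fun w => hx.fair.typical M hM hp s w⟩
  have part2 : ∀ (b : ℕ) [NeZero b], ∀ (Q Γ : Type) [Fintype Q] (M : Machine (Fin b) Q Γ)
      (s : Q), M.Lossless → ∀ x : ℝ, TypicalOutput b x M s → Normal b x := by
    intro b _ Q Γ _ M s hL x hx
    rw [normal_iff]
    exact normal_of_lossless M hL s _ hx
  refine ⟨?_, ?_, ?_⟩
  · intro b _ hb
    have hcard : 2 ≤ Fintype.card (Fin b) := by rwa [Fintype.card_fin]
    refine ⟨part1 b, part2 b, ?_, ?_, ?_, ?_⟩
    · intro Q Γ _ M s x C h
      rw [normal_iff]
      apply normal_of_bounded M s _ (max C 0) (le_max_right _ _)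
      intro w ε hε
      rw [Fintype.card_fin]
      filter_upwards [h w ε hε, eventually_gt_atTop 0] with N hN hN0
      have hN1 : (0 : ℝ) < N := by exact_mod_cast hN0
      rw [div_le_iff₀ hN1] at hN
      refine hN.trans ?_
      apply mul_le_mul_of_nonneg_right _ hN1.le
      have : C / (b : ℝ) ^ w.length ≤ max C 0 / (b : ℝ) ^ w.length :=
        div_le_div_of_nonneg_right (le_max_left _ _) (by positivity)
      linarith
    · intro ι _ Q Γ _ M s hM
      constructor
      · intro h
        by_contra hcon
        push Not at hcon
        have := Fintype.ofFinite ι
        obtain ⟨a, ha1, ha2, ha3⟩ := fool hcard Q Γ M hM hcon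
        obtain ⟨x, hx⟩ := exists_digits b hb a (ha3 0)
        apply ha1
        have h1 := h x (fun i => by
          unfold TypicalOutput
          rw [hx]
          exact ha2 i (s i))
        rwa [normal_iff, hx] at h1
      · rintro ⟨i, hi⟩ x hx
        exact part2 b (Q i) (Γ i) (M i) (s i) hi x (hx i)
    · intro S
      obtain ⟨a, ha1, ha2, ha3⟩ := fool_all hcard S
      obtain ⟨x, hx⟩ := exists_digits b hb a (ha3 0)
      refine ⟨x, ?_, ?_⟩
      · rwa [normal_iff, hx]
      · intro Q Γ _ M s hQ hM hL
        unfold TypicalOutput
        rw [hx]
        exact ha2 Q Γ _ M s hQ hM hL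
    · intro x h
      rw [normal_iff]
      exact normal_of_all hcard _ (fun Q Γ _ M s hM hL => h Q Γ M s hM hL)
  · intro Q Γ _ M s hM hL
    exact ⟨(part1 10 Q Γ M s hM).2 Real.pi, part2 10 Q Γ M s hL Real.pi⟩
  · -- the sums of neighbouring digits
    have hsum : ∀ p : Fin 10 → ℝ, (adder 10).Stationary p → ∀ w : List (Fin 10),
        ∑ q, p q * (adder 10).prob q w = 1 / (10 : ℝ) ^ w.length := by
      intro p hp w
      simp_rw [adder_prob]
      rw [← Finset.sum_mul, hp.2.1, one_mul]
      norm_num
    have hshift : ∀ w : List (Fin 10), Small fun N =>
        (occ (fun n => digit 10 Real.pi n + digit 10 Real.pi (n + 1)) w N : ℝ) -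
          occ ((adder 10).output 0 (digit 10 Real.pi)) w N := by
      intro w
      apply small_of_bdd 1
      intro N
      rw [occ_eq_cnt, occ_eq_cnt]
      have h1 : ∀ n, window (fun n => digit 10 Real.pi n + digit 10 Real.pi (n + 1)) n w.length =
          window ((adder 10).output 0 (digit 10 Real.pi)) (n + 1) w.length := by
        intro n
        have h2 : ∀ k n, window (fun n => digit 10 Real.pi n + digit 10 Real.pi (n + 1)) n k =
            window ((adder 10).output 0 (digit 10 Real.pi)) (n + 1) k := by
          intro k
          induction k with
          | zero => intro n; rfl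
          | succ k ih =>
            intro n
            simp only [window]
            rw [ih]
            rfl
        exact h2 _ n
      simp_rw [h1]
      exact cnt_shift_sub
        (fun n => window ((adder 10).output 0 (digit 10 Real.pi)) n w.length = w) N
    constructor
    · intro h w
      obtain ⟨p, hp, hlim⟩ := (part1 10 _ _ (adder 10) 0 (adder_connected 10)).2 Real.pi h
      have h1 := hlim w
      rw [hsum p hp] at h1
      have h2 := hshift w
      rw [Helper70.FS.small_iff] at h2
      have h3 := h1.add h2
      rw [add_zero] at h3
      exact h3.congr fun N => by ring
    · intro h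
      obtain ⟨p, hp, -⟩ := (part1 10 _ _ (adder 10) 0 (adder_connected 10)).1
      apply part2 10 _ _ (adder 10) 0 (adder_lossless 10)
      refine ⟨p, hp, fun w => ?_⟩
      rw [hsum p hp]
      have h2 := hshift w
      rw [Helper70.FS.small_iff] at h2
      have h3 := (h w).sub h2
      rw [sub_zero] at h3
      exact h3.congr fun N => by ring

end Pool.Agent.Results.MP_57632f_nt.MachinesThatDecide
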